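import Pool.Agent.Q55.Lr.SgnLaw

/-!
# The even Kunneth projector is algebraic or as far as possible from the algebraic operators

Let `X` be a smooth proper variety over a field and `H` a Weil cohomology with coefficient field
`K`. The operators on `H(X)` which are combinations, with coefficients in `K`, of algebraic
correspondences of any degrees are called algebraic. Let `d(X)` be the smallest rank of an operator
`π⁺ - u`, where `π⁺` is the projector onto the even cohomology and `u` is algebraic. Let `b` be the
sum of the Betti numbers of `X` and `r(Y)` the rank of the group of the cycles of all codimensions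
on `Y` modulo numerical equivalence.

The theorem.

* `d(X) = 0` if and only if the sign conjecture `C⁺(X)` holds: `π⁺` is the class of an algebraic
  cycle of codimension `dim X` on `X × X` with rational coefficients.
* If `C⁺(X)` fails, then `d(X × Y) ≥ r(Y) / b` for all `Y`.
* Either `C⁺(X)` holds and `d(X^n) = 0` for all powers of `X`, or it fails and
  `b^n ≤ (n+1)^(b^2) d(X^n)` for all `n ≥ 1`, while `b^n = dim H(X^n)` is the trivial upper bound of
  `d(X^n)`; in particular `d(X^n)^(1/n)` converges to `b`.

So one power `X^n` and one combination `u` of algebraic correspondences on it with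
`rank (π⁺ - u) < b^n / (n+1)^(b^2)` imply the sign conjecture for `X`.

The proof: the operators given by the permutations of the factors of `X^n` are algebraic and span
a semisimple algebra of dimension at least `b^(2n) / (n+1)^(b^2)`. An operator `π⁺ - u` of smaller
rank than `b^n / (n+1)^(b^2)` is killed by an idempotent `e ≠ 0` of this algebra, so `e π⁺ = e u` is
algebraic, and the partial traces of the conjugates of `e (2 π⁺ - 1)` and the positivity of the
numbers of even and odd factors on the image of `e` show that `π⁺` of `X` is algebraic.
-/

open CategoryTheory AlgebraicGeometry Filter Topology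

universe u v

namespace Pool.Agent.Results.MP_56c18a_ag.MaximalDistance

open Pool.Agent.H914 Pool.Agent.H914.VarClass Pool.Agent.H914.VarClass.Obj
  Pool.Agent.H914.WeilCohomology Pool.Agent.H447 Pool.Agent.Y133.Half Pool.Agent.Q55.Lr
  Pool.Agent.Q55.Rate

variable {k : Type u} [Field k] {𝒱 : VarClass k} {ops : CycleOps 𝒱}

/-- **The even Kunneth projector is algebraic, or its distance from the algebraic operators on the
powers of the variety grows with the largest possible rate.** -/
theorem result (W : WeilCohomology.{u, v} ops) (X : 𝒱.Obj) :
    (evenDist W X = 0 ↔ SignStd W X) ∧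
    ((SignStd W X ∧ ∀ n, evenDist W (pw X n) = 0) ∨
      (¬ SignStd W X ∧
        (∀ Y : 𝒱.Obj, cycRank ops Y ≤ totalBetti W X * evenDist W (X.prod Y)) ∧
        (∀ n, totalBetti W X ^ (n + 1) ≤
          (n + 2) ^ (totalBetti W X ^ 2) * evenDist W (pw X n)) ∧
        Tendsto (fun n : ℕ => (evenDist W (pw X n) : ℝ) ^ ((1 : ℝ) / (n + 1))) atTop
          (𝓝 (totalBetti W X)))) := by
  refine ⟨edist_eq_zero, ?_⟩
  by_cases h : SignStd W X
  · exact Or.inl ⟨h, fun n => edist_eq_zero.2 (signStd_pw h n)⟩
  · exact Or.inr ⟨h, edist_left h, edist_law h, edist_rate h⟩

end Pool.Agent.Results.MP_56c18a_ag.MaximalDistance
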