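import Pool.Agent.Q57.ND.Law

/-!
# The sign conjecture as the equality of two numbers, with a gap for powers

Let `X` be a smooth proper variety over a field. Its numerical dimension `N(X)` is the largest
natural number which is the intersection number with the diagonal of a correspondence `z` of degree
zero from `X` to `X` (with rational coefficients) such that `z ∘ z` is numerically equivalent to the
diagonal. It only depends on the algebraic cycles on `X × X` and their intersection numbers.

Let `H` be any Weil cohomology with coefficient field `K`, `b(X)` the sum of the Betti numbers,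
`χ(X)` the Euler characteristic, `π⁺` the projector onto the even cohomology, and `d(X)` the smallest
rank of an operator `π⁺ - u`, where `u` is algebraic (a combination, with coefficients in `K`, of
correspondences of any degrees). Let `r(Y)` be the rank of the group of the cycles of all codimensions
on `Y` modulo numerical equivalence. The theorem:

* `|χ(X)| ≤ N(X) ≤ b(X) - 2 d(X)` for all `X`.
* If the sign conjecture `C⁺(X)` holds, then `N(X^n) = b(X)^n` for all `n ≥ 1`.
* If it fails, then `N(X^n) ≤ b(X)^n (1 - 2 / (n + 1)^(b(X)^2))` for all `n ≥ 1` and
  `N(X × Y) ≤ b(X) b(Y) - 2 r(Y) / b(X)` for all `Y`.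

So `C⁺(X)` holds if and only if `N(X) = b(X)`; and one correspondence `z` on one power `X^n` such that
`z ∘ z` is numerically equivalent to the diagonal with the intersection number
`(z . Δ) > b(X)^n (1 - 2 / (n + 1)^(b(X)^2))` with the diagonal implies `C⁺(X)` (`b(X)^n` is the
largest possible value).

The proof: let `T` be the operator given by `z`, and let `ε` be `1` on the even and `-1` on the odd
cohomology. By the trace formula the supertraces of `(T² - 1) p(T)` vanish for all polynomials `p`.
Split `H(X)` in the generalised eigenspaces of `T` for `1`, `-1` and the rest. The projectors are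
polynomials in `T`, and the supertrace of the projector for the rest vanishes. This gives
`(z . Δ) = str(T) = b(X) - 2 n` where `n` is the rank of the difference of `π⁺` and the projector for
the eigenvalue `1`, a polynomial in `T`.
-/

open CategoryTheory AlgebraicGeometry

universe u v

namespace Pool.Agent.Results.MP_56c18a_ag.NumericalDimension

open Pool.Agent.H914 Pool.Agent.H914.VarClass Pool.Agent.H914.VarClass.Obj
  Pool.Agent.H914.WeilCohomology Pool.Agent.H447 Pool.Agent.Y133.Half Pool.Agent.Q55.Lr
  Pool.Agent.Q55.Rate Pool.Agent.Q57.ND

variable {k : Type u} [Field k] {𝒱 : VarClass k} {ops : CycleOps 𝒱}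

/-- **The numerical dimension and the sign conjecture.** -/
theorem result (W : WeilCohomology.{u, v} ops) (X : 𝒱.Obj) :
    (euler W X).natAbs ≤ numericalDim ops X ∧
    numericalDim ops X + 2 * evenDist W X ≤ totalBetti W X ∧
    ((SignStd W X ∧ ∀ n, numericalDim ops (pw X n) = totalBetti W X ^ (n + 1)) ∨
      (¬ SignStd W X ∧
        (∀ n, 2 * totalBetti W X ^ (n + 1) +
            (n + 2) ^ (totalBetti W X ^ 2) * numericalDim ops (pw X n) ≤
          (n + 2) ^ (totalBetti W X ^ 2) * totalBetti W X ^ (n + 1)) ∧
        ∀ Y : 𝒱.Obj, 2 * cycRank ops Y + totalBetti W X * numericalDim ops (X.prod Y) ≤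
          totalBetti W X * (totalBetti W X * totalBetti W Y))) := by
  refine ⟨euler_le W, by rw [add_comm]; exact dist_add_le W, ?_⟩
  by_cases h : SignStd W X
  · exact Or.inl ⟨h, dim_pw_of_sign h⟩
  · exact Or.inr ⟨h, gap_pw h, gap_prod h⟩

end Pool.Agent.Results.MP_56c18a_ag.NumericalDimension
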