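import Pool.Agent.Q56.PC.Word

/-!
# One nonscalar function of the parities of the factors decides the sign conjecture

`C` is a `ℚ`-linear rigid symmetric monoidal category in which every endomorphism of the unit is
rational, with a symmetric monoidal additive functor `H` to finite dimensional super vector spaces
over a field `K`, for example the category of Chow or homological motives with a Weil cohomology
theory. Let `M` be an object, for example the motive of a smooth projective variety `X`. The space
`H(M ^ n) = H(M) ⊗ ⋯ ⊗ H(M)` is the direct sum of `2 ^ n` subspaces, the tensors of given parities
of the factors; for a function `f` on the set of these `2 ^ n` sequences of parities let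
`parityOp f` be the operator which is the scalar `f w` on the subspace of the sequence `w`.

If ONE of these operators, `f` not constant, is algebraic with coefficients in `K`, then the sign
conjecture `C⁺` holds for `M`, and ALL of them with rational values are images of endomorphisms of
`M ^ n`. So the algebra of dimension `2 ^ n` of these operators contains, besides the scalars, either
no algebraic element or only algebraic ones.
-/

set_option autoImplicit false

open CategoryTheory Limits MonoidalCategory

namespace Pool.Agent.Results.MP_56c18a_ag.OneParityFunction

open Pool.Agent.Y112.SR Pool.Agent.Y112.KD Pool.Agent.Y112.SC Q20.Cp Q56.PC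

universe v u w

/-- **One nonconstant function of the parities of the factors of a power decides the sign
conjecture.** -/
theorem result {C : Type u} [Category.{v} C] [Preadditive C] [Linear ℚ C] [MonoidalCategory C]
    [MonoidalPreadditive C] [MonoidalLinear ℚ C] [SymmetricCategory C] [RightRigidCategory C]
    {K : Type w} [Field K] (R : SuperRealisation C K) (hC : RationalUnit C) (M : C) : List.TFAE [
    R.CPlus M,
    ∀ (n : ℕ) (f : (Fin n → Bool) → ℚ), ∃ g : tp M n ⟶ tp M n,
      R.H.map g = parityOp R M n fun w => (f w : K),
    ∃ (n : ℕ) (f : (Fin n → Bool) → K), (∃ w w', f w ≠ f w') ∧
      parityOp R M n f ∈ KAlg R (tp M n)] :=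
  parityOp_tfae hC M

end Pool.Agent.Results.MP_56c18a_ag.OneParityFunction
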