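import Pool.Agent.Q26.CP.AllChar

/-!
# Grothendieck's sign conjecture is a bound in the theorem of Katz and Messing

Over the algebraic closure of a finite field the sign conjecture `C⁺(X)` is a theorem of Katz and
Messing. Consider the smooth projective varieties `X ⊂ ℙ^N` of a bounded type, e.g. of given dimension
and degree, and say that `π⁺` has complexity at most `n` if it is the class of a cycle
`(Z₁ - Z₂)/a` on `X × X`, where `1 ≤ a ≤ n` and `Z₁`, `Z₂` are effective cycles of degree at
most `n`. Then

1. the sign conjecture over all algebraically closed fields is equivalent to the following: for
   each type there is a number `n`, such that `π⁺` has complexity at most `n` for all varieties of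
   this type over `F̄_p` and all primes `p`;
2. the sign conjecture in characteristic zero is equivalent to the following: for each type there
   is a number `n` such that for infinitely many primes `p` (equivalently, for all but finitely
   many) `π⁺` has complexity at most `n` for all varieties of this type over `F̄_p`;
3. the sign conjecture over all fields of characteristic `p` is equivalent to the following: for
   each type there is a number `n`, such that `π⁺` has complexity at most `n` for all varieties of
   this type over `F̄_p`.

(The sign conjecture for smooth proper varieties over perfect fields follows from the case of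
smooth projective varieties over algebraically closed fields.)
-/

set_option autoImplicit false

namespace Pool.Agent.Results.MP_56c18a_ag.UniformKatzMessing

open Pool.Agent.Q26.CP

/-- The smooth projective varieties over algebraically closed fields `K`. There are bounded types
`t : Ty`; the varieties of type `t` over `K` are parametrized by the points of `K ^ k t` with the
property `isVar t`, and the property `even t n` says that the even Künneth projector `π⁺` is the
class of a cycle of complexity at most `n`. Both are first-order properties (relative Hilbert
schemes; the classes of the cycles in a family and `π⁺` are horizontal sections). `Cplus K t x` is the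
statement `C⁺(X)` for the variety `X` over `K` with parameters `x`. -/
structure Varieties where
  Ty : Type
  k : Ty → ℕ
  isVar : ∀ t, Pred (k t)
  even : ∀ t, ℕ → Pred (k t)
  fo_isVar : ∀ t, IsFirstOrder (isVar t)
  fo_even : ∀ t n, IsFirstOrder (even t n)
  even_mono : ∀ t (m n : ℕ), m ≤ n → ∀ (K : Type) [Field K] (x : Fin (k t) → K),
    even t m K x → even t n K x
  Cplus : ∀ (K : Type) [Field K] (t : Ty), (Fin (k t) → K) → Prop
  cplus_iff : ∀ (K : Type) [Field K] [IsAlgClosed K] (t : Ty) (x : Fin (k t) → K),
    isVar t K x → (Cplus K t x ↔ ∃ n, even t n K x)

/-- the sign conjecture for all smooth projective varieties over `K` -/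
def SignConjecture (M : Varieties) (K : Type) [Field K] : Prop :=
  ∀ (t : M.Ty) (x : Fin (M.k t) → K), M.isVar t K x → M.Cplus K t x

/-- for all varieties of type `t` over `F̄_p` the projector `π⁺` has complexity at most `n` -/
def KatzMessingBound (M : Varieties) (t : M.Ty) (n : ℕ) (p : Nat.Primes) : Prop :=
  ∀ x : Fin (M.k t) → Fbar p, M.isVar t (Fbar p) x → M.even t n (Fbar p) x

/-- the conjecture for one type as a `Problem` -/
def Varieties.problem (M : Varieties) (t : M.Ty) : Problem where
  k := M.k t
  hyp _ := M.isVar t
  con := M.even t
  fo_hyp _ := M.fo_isVar t
  fo_con := M.fo_even t
  hyp_anti _ _ _ _ _ _ h := h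
  con_mono := M.even_mono t

/-- the sign conjecture in all characteristics is a bound which depends on the type only -/
def AllCharacteristics (M : Varieties) : Prop :=
  (∀ (K : Type) [Field K] [IsAlgClosed K], SignConjecture M K) ↔
    ∀ t : M.Ty, ∃ n, ∀ p, KatzMessingBound M t n p

/-- the sign conjecture in characteristic zero is a bound for infinitely many primes, or for all but
finitely many primes -/
def CharacteristicZero (M : Varieties) : Prop :=
  [∀ (K : Type) [Field K] [IsAlgClosed K] [CharZero K], SignConjecture M K,
    ∀ t : M.Ty, ∃ n, {p | KatzMessingBound M t n p}.Infinite,
    ∀ t : M.Ty, ∃ n, {p | ¬ KatzMessingBound M t n p}.Finite].TFAE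

/-- the sign conjecture in characteristic `p` is a bound which may depend on `p` -/
def CharacteristicP (M : Varieties) (p : Nat.Primes) : Prop :=
  (∀ (K : Type) [Field K] [IsAlgClosed K] [CharP K p], SignConjecture M K) ↔
    ∀ t : M.Ty, ∃ n, KatzMessingBound M t n p

theorem signConjecture_iff (M : Varieties) (K : Type) [Field K] [IsAlgClosed K] :
    SignConjecture M K ↔ ∀ t, (M.problem t).Solved K := by
  constructor
  · intro h t x hx
    exact (M.cplus_iff K t x (hx 0)).1 (h t x (hx 0))
  · intro h t x hx
    exact (M.cplus_iff K t x hx).2 (h t x fun _ => hx)

/-- The sign conjecture over all algebraically closed fields (in characteristic zero, in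
characteristic `p`) holds iff for each bounded type of smooth projective varieties the cycles in the
theorem of Katz and Messing over `F̄_p` can be chosen of bounded complexity, with a bound
independent of `p` (for infinitely many, equivalently for all but finitely many `p`; for the given
`p`). -/
theorem result (M : Varieties) :
    AllCharacteristics M ∧ CharacteristicZero M ∧ ∀ p, CharacteristicP M p := by
  refine ⟨?_, ?_, fun p => ?_⟩
  · constructor
    · intro h t
      exact (M.problem t).solved_iff.1 fun K _ _ => (signConjecture_iff M K).1 (h K) t
    · intro h K _ _
      exact (signConjecture_iff M K).2 fun t => (M.problem t).solved_iff.2 (h t) K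
  · unfold CharacteristicZero
    tfae_have 1 → 3 := fun h t => ((M.problem t).tfae.out 0 4).1
      ((signConjecture_iff M ℂ).1 (h ℂ) t)
    tfae_have 3 → 2 := fun h t => ((M.problem t).tfae.out 4 3).1 (h t)
    tfae_have 2 → 1 := by
      intro h K _ _ _
      refine (signConjecture_iff M K).2 fun t => ?_
      have h2 : ∀ (K : Type) [Field K] [IsAlgClosed K] [CharZero K], (M.problem t).Solved K :=
        ((M.problem t).tfae.out 3 1).1 (h t)
      exact h2 K
    tfae_finish
  · constructor
    · intro h t
      exact ((M.problem t).solved_char_iff p).1 fun K _ _ _ =>
        (signConjecture_iff M K).1 (h K) t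
    · intro h K _ _ _
      exact (signConjecture_iff M K).2 fun t => ((M.problem t).solved_char_iff p).2 (h t) K

end Pool.Agent.Results.MP_56c18a_ag.UniformKatzMessing
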